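import Mathlib

/-!
# MP_ba200f_al : an irreducible Jordan supermodule over a Kantor double that is not `Kan(V)`

Superspaces over a field `F` with `2 ≠ 0` are given by their parity automorphism `γ`
(`γ² = 1`; the part of parity `i` is `{x | γ x = (-1)^i x}`).
-/

namespace Pool.Agent.Results.MP_ba200f_al.NotKan

open Module

universe u w

/-- The parity automorphism of a superspace: an `F`-linear involution `γ`.  For `2 ≠ 0` in `F`
this is the same thing as a `ℤ/2`-grading, with `V_i = {x | γ x = (-1)^i x}`. -/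
structure Parity (F : Type u) [Field F] (V : Type w) [AddCommGroup V] [Module F V] where
  γ : V →ₗ[F] V
  invol : ∀ x, γ (γ x) = x

section defs

variable {F : Type u} [Field F]

/-- `f` is bilinear over `F`. -/
structure IsBilin (F : Type u) [Field F] {X Y Z : Type*} [AddCommGroup X] [Module F X]
    [AddCommGroup Y] [Module F Y] [AddCommGroup Z] [Module F Z] (f : X → Y → Z) : Prop where
  add_left : ∀ x x' y, f (x + x') y = f x y + f x' y
  add_right : ∀ x y y', f x (y + y') = f x y + f x y'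
  smul_left : ∀ (r : F) x y, f (r • x) y = r • f x y
  smul_right : ∀ (r : F) x y, f x (r • y) = r • f x y

variable {V W : Type w} [AddCommGroup V] [Module F V] [AddCommGroup W] [Module F W]

/-- `x` is homogeneous of parity `i`. -/
def Parity.Hom (p : Parity F V) (i : Fin 2) (x : V) : Prop :=
  p.γ x = ((-1 : F) ^ (i : ℕ)) • x

/-- The superspace `V ⊕ W`. -/
def Parity.sum {W : Type*} [AddCommGroup W] [Module F W]
    (p : Parity F V) (q : Parity F W) : Parity F (V × W) where
  γ := p.γ.prodMap q.γ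
  invol := by
    rintro ⟨x, y⟩
    simp [p.invol, q.invol]

/-- The superspace `V ⊕ V̄`, with `V̄` a copy of `V` with shifted parity. -/
def Parity.double (p : Parity F V) : Parity F (V × V) where
  γ := p.γ.prodMap (-p.γ)
  invol := by
    rintro ⟨x, y⟩
    simp [p.invol]

/-- A Jordan superalgebra `(V, m)`: the product is even and supercommutative, and satisfies the
super Jordan identity (linearised form, with the usual signs; `a, b, c, d` are the parities of
`x₁, x₂, y, x₃`) and, for even `x`, the Jordan identity `((xx)y)x = (xx)(yx)` (this last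
condition follows from the previous one if `3 ≠ 0` in `F`).  Equivalently, the Grassmann envelope
is a Jordan algebra. -/
structure IsJordan (p : Parity F V) (m : V → V → V) : Prop where
  bilin : IsBilin F m
  even : ∀ x y, p.γ (m x y) = m (p.γ x) (p.γ y)
  comm : ∀ (i j : Fin 2) (x y : V), p.Hom i x → p.Hom j y →
    m x y = ((-1 : F) ^ ((i : ℕ) * j)) • m y x
  jordan : ∀ (a b c d : Fin 2) (x₁ x₂ y x₃ : V),
    p.Hom a x₁ → p.Hom b x₂ → p.Hom c y → p.Hom d x₃ →
    m (m (m x₁ x₂) y) x₃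
      + ((-1 : F) ^ ((d : ℕ) * (b + c) + b * c)) • m (m (m x₁ x₃) y) x₂
      + ((-1 : F) ^ ((a : ℕ) * (b + c + d) + d * c)) • m (m (m x₂ x₃) y) x₁
    = m (m x₁ x₂) (m y x₃)
      + ((-1 : F) ^ ((d : ℕ) * (b + c) + b * c)) • m (m x₁ x₃) (m y x₂)
      + ((-1 : F) ^ ((a : ℕ) * (b + c + d) + d * c)) • m (m x₂ x₃) (m y x₁)
  jordan_even : ∀ x y : V, p.Hom 0 x → m (m (m x x) y) x = m (m x x) (m y x)

end defs

/-- Data of a superspace with a product (dot) and a bracket. -/
structure DotBracket (F : Type u) [Field F] (A : Type w) [AddCommGroup A] [Module F A] where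
  par : Parity F A
  dot : A → A → A
  br : A → A → A

/-- Data of a superspace `V` with right and left actions `v·a`, `a·v`, `{v,a}`, `{a,v}`
of `A`. -/
structure DBModule (F : Type u) [Field F] (A : Type w) [AddCommGroup A] [Module F A]
    (V : Type*) [AddCommGroup V] [Module F V] where
  par : Parity F V
  dotR : V → A → V
  dotL : A → V → V
  brR : V → A → V
  brL : A → V → V

/-- Data of a superspace `M` with right and left actions of `J`. -/
structure SModule (F : Type u) [Field F] (J : Type w) [AddCommGroup J] [Module F J]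
    (M : Type*) [AddCommGroup M] [Module F M] where
  par : Parity F M
  actR : M → J → M
  actL : J → M → M

section

variable {F : Type u} [Field F]
variable {A : Type w} [AddCommGroup A] [Module F A]

/-- `A` is a dot-bracket superalgebra: both operations are bilinear and even, the dot is
associative and supercommutative and the bracket is super-anticommutative. -/
structure DotBracket.IsDB (D : DotBracket F A) : Prop where
  dot_bilin : IsBilin F D.dot
  br_bilin : IsBilin F D.br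
  dot_even : ∀ x y, D.par.γ (D.dot x y) = D.dot (D.par.γ x) (D.par.γ y)
  br_even : ∀ x y, D.par.γ (D.br x y) = D.br (D.par.γ x) (D.par.γ y)
  assoc : ∀ x y z, D.dot (D.dot x y) z = D.dot x (D.dot y z)
  dot_comm : ∀ (i j : Fin 2) (x y : A), D.par.Hom i x → D.par.Hom j y →
    D.dot x y = ((-1 : F) ^ ((i : ℕ) * j)) • D.dot y x
  br_anticomm : ∀ (i j : Fin 2) (x y : A), D.par.Hom i x → D.par.Hom j y →
    D.br x y = -(((-1 : F) ^ ((i : ℕ) * j)) • D.br y x)

/-- The product of the Kantor double `Kan(A) = A ⊕ Ā`; the pair `(a, a')` stands for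
`a + ā'`.  The formulas `a*b = a·b`, `a*b̄ = \overline{a·b}`, `ā*b = (-1)^{|b|} \overline{a·b}`,
`ā*b̄ = (-1)^{|b|} {a,b}` for homogeneous elements say that
`(a + ā')*(b + b̄') = (a·b + {a',γb'}) + \overline{a·b' + a'·γb}`. -/
def DotBracket.kanMul (D : DotBracket F A) (x y : A × A) : A × A :=
  (D.dot x.1 y.1 + D.br x.2 (D.par.γ y.2), D.dot x.1 y.2 + D.dot x.2 (D.par.γ y.1))

/-- The bracket of `A` is Jordan: `Kan(A)` is a Jordan superalgebra. -/
def DotBracket.JordanBracket (D : DotBracket F A) : Prop :=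
  IsJordan D.par.double D.kanMul

/-- `e` is an identity for the dot product. -/
def DotBracket.IsOne (D : DotBracket F A) (e : A) : Prop :=
  ∀ x, D.dot e x = x ∧ D.dot x e = x

/-- `A` is simple: the only ideals of `(A, ·)` closed under bracketing with `A` are `0`
and `A`. -/
def DotBracket.IsSimple (D : DotBracket F A) : Prop :=
  Nontrivial A ∧ ∀ I : Submodule F A,
    (∀ x ∈ I, ∀ a, D.dot x a ∈ I ∧ D.dot a x ∈ I ∧ D.br x a ∈ I ∧ D.br a x ∈ I) →
      I = ⊥ ∨ I = ⊤

variable {V : Type*} [AddCommGroup V] [Module F V]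

/-- The split null extension `A ⊕ V`, with `V·V = {V,V} = 0`. -/
def DBModule.nullExt (D : DotBracket F A) (N : DBModule F A V) : DotBracket F (A × V) where
  par := D.par.sum N.par
  dot x y := (D.dot x.1 y.1, N.dotL x.1 y.2 + N.dotR x.2 y.1)
  br x y := (D.br x.1 y.1, N.brL x.1 y.2 + N.brR x.2 y.1)

/-- `V` is a dot-bracket supermodule with a Jordan bracket over `A`: the actions are bilinear
and the split null extension is a dot-bracket superalgebra with a Jordan bracket. -/
structure DBModule.IsJordanDB (D : DotBracket F A) (N : DBModule F A V) : Prop where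
  dotR_bilin : IsBilin F N.dotR
  dotL_bilin : IsBilin F N.dotL
  brR_bilin : IsBilin F N.brR
  brL_bilin : IsBilin F N.brL
  isDB : (N.nullExt D).IsDB
  jordan : (N.nullExt D).JordanBracket

/-- `e` acts on `V` as the identity map. -/
def DBModule.Unital (N : DBModule F A V) (e : A) : Prop :=
  ∀ v, N.dotR v e = v ∧ N.dotL e v = v

/-- `V` is irreducible: nonzero, and the only graded submodules are `0` and `V`. -/
def DBModule.Irreducible (N : DBModule F A V) : Prop :=
  Nontrivial V ∧ ∀ S : Submodule F V,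
    (∀ v ∈ S, N.par.γ v ∈ S) →
    (∀ v ∈ S, ∀ a, N.dotR v a ∈ S ∧ N.dotL a v ∈ S ∧ N.brR v a ∈ S ∧ N.brL a v ∈ S) →
      S = ⊥ ∨ S = ⊤

/-- `Kan(V) = V ⊕ V̄`, with the actions of `Kan(A)` given by the formulas of the
Kantor double. -/
def DBModule.kan (D : DotBracket F A) (N : DBModule F A V) : SModule F (A × A) (V × V) where
  par := N.par.double
  actR v a := (N.dotR v.1 a.1 + N.brR v.2 (D.par.γ a.2),
    N.dotR v.1 a.2 + N.dotR v.2 (D.par.γ a.1))
  actL a v := (N.dotL a.1 v.1 + N.brL a.2 (N.par.γ v.2),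
    N.dotL a.1 v.2 + N.dotL a.2 (N.par.γ v.1))

end

section

variable {F : Type u} [Field F]
variable {J : Type w} [AddCommGroup J] [Module F J]
variable {M : Type*} [AddCommGroup M] [Module F M]

/-- `M` is a Jordan supermodule over the superalgebra `(J, p, mul)`: the actions are bilinear
and the split null extension `J ⊕ M` is a Jordan superalgebra. -/
structure SModule.IsJordanModule (p : Parity F J) (mul : J → J → J) (N : SModule F J M) :
    Prop where
  actR_bilin : IsBilin F N.actR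
  actL_bilin : IsBilin F N.actL
  jordan : IsJordan (p.sum N.par)
    (fun x y : J × M => (mul x.1 y.1, N.actL x.1 y.2 + N.actR x.2 y.1))

/-- `e` acts on `M` as the identity map. -/
def SModule.Unital (N : SModule F J M) (e : J) : Prop :=
  ∀ m, N.actR m e = m ∧ N.actL e m = m

/-- `M` is irreducible: nonzero, and the only graded submodules are `0` and `M`. -/
def SModule.Irreducible (N : SModule F J M) : Prop :=
  Nontrivial M ∧ ∀ S : Submodule F M,
    (∀ m ∈ S, N.par.γ m ∈ S) → (∀ m ∈ S, ∀ a, N.actR m a ∈ S ∧ N.actL a m ∈ S) →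
      S = ⊥ ∨ S = ⊤

/-- An isomorphism of supermodules over `J`: an even linear bijection that commutes with both
actions. -/
def SModule.IsIso {M' : Type*} [AddCommGroup M'] [Module F M'] (N : SModule F J M)
    (N' : SModule F J M') (f : M ≃ₗ[F] M') : Prop :=
  (∀ m, f (N.par.γ m) = N'.par.γ (f m)) ∧ (∀ m a, f (N.actR m a) = N'.actR (f m) a) ∧
    (∀ m a, f (N.actL a m) = N'.actL a (f m))

end

/-! ### The example -/

section

variable (F : Type u) [Field F]

/-- The parity of the superspace `F·1 ⊕ F·e`, with `1` even and `e` odd. -/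
def par11 : Parity F (F × F) where
  γ := LinearMap.id.prodMap (-LinearMap.id)
  invol := by
    rintro ⟨x, y⟩
    simp

/-- The Grassmann Poisson superalgebra `G₁` on one odd generator `e`, `(a₀, a₁) = a₀ + a₁ e`:
`e·e = 0`, `{f,g} = (-1)^{|f|} ∂f/∂e ∂g/∂e`, that is `{e,e} = -1`, `{1,-} = {-,1} = 0`. -/
def G1 : DotBracket F (F × F) where
  par := par11 F
  dot a b := (a.1 * b.1, a.1 * b.2 + a.2 * b.1)
  br a b := (-(a.2 * b.2), 0)

/-- A `(1|1)`-dimensional supermodule over `Kan(G₁)`: with `M = F m₀ ⊕ F m₁`, `m₀` even and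
`m₁` odd, `(s, t) = s m₀ + t m₁`, the even element `ē` acts by `m₀ ↦ m₀`, `m₁ ↦ 0`, the odd
element `1̄` acts by `m₀ ↦ m₁`, `m₁ ↦ 0` and the odd element `e` acts on the left by `m₁ ↦ m₀`,
`m₀ ↦ 0` (and on the right by `m₁ ↦ -m₀`). -/
def M11 : SModule F ((F × F) × (F × F)) (F × F) where
  par := par11 F
  actR m a := (a.1.1 * m.1 + a.2.2 * m.1 - a.1.2 * m.2, a.1.1 * m.2 + a.2.1 * m.1)
  actL a m := (a.1.1 * m.1 + a.2.2 * m.1 + a.1.2 * m.2, a.1.1 * m.2 + a.2.1 * m.1)

variable {F}

lemma eq_zero_of_eq_neg (h2 : (2 : F) ≠ 0) {x : F} (h : x = -x) : x = 0 := by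
  have : (2 : F) * x = 0 := by linear_combination h
  exact (mul_eq_zero.1 this).resolve_left h2

/-- explicit form of homogeneous elements of `F·1 ⊕ F·e` -/
lemma hom11 (h2 : (2 : F) ≠ 0) {i : Fin 2} {x : F × F} (h : (par11 F).Hom i x) :
    (i = 0 ∧ ∃ a, x = (a, 0)) ∨ (i = 1 ∧ ∃ a, x = (0, a)) := by
  obtain ⟨a, b⟩ := x
  fin_cases i
  · left
    simp [Parity.Hom, par11] at h
    exact ⟨rfl, a, by rw [eq_zero_of_eq_neg h2 h.symm]⟩
  · right
    simp [Parity.Hom, par11] at h
    exact ⟨rfl, b, by rw [eq_zero_of_eq_neg h2 h]⟩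

lemma homK (h2 : (2 : F) ≠ 0) {i : Fin 2} {x : (F × F) × (F × F)}
    (h : (par11 F).double.Hom i x) :
    (i = 0 ∧ ∃ a b, x = ((a, 0), (0, b))) ∨ (i = 1 ∧ ∃ a b, x = ((0, a), (b, 0))) := by
  obtain ⟨⟨a, b⟩, ⟨c, d⟩⟩ := x
  fin_cases i
  · left
    simp [Parity.Hom, par11, Parity.double] at h
    obtain ⟨h1, h3⟩ := h
    exact ⟨rfl, a, d, by rw [eq_zero_of_eq_neg h2 h1.symm, eq_zero_of_eq_neg h2 h3.symm]⟩
  · right
    simp [Parity.Hom, par11, Parity.double] at h
    obtain ⟨h1, h3⟩ := h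
    exact ⟨rfl, b, c, by rw [eq_zero_of_eq_neg h2 h1, eq_zero_of_eq_neg h2 h3]⟩

lemma homE (h2 : (2 : F) ≠ 0) {i : Fin 2} {x : ((F × F) × (F × F)) × (F × F)}
    (h : ((par11 F).double.sum (par11 F)).Hom i x) :
    (i = 0 ∧ ∃ a b c, x = (((a, 0), (0, b)), (c, 0))) ∨
      (i = 1 ∧ ∃ a b c, x = (((0, a), (b, 0)), (0, c))) := by
  obtain ⟨⟨⟨a, b⟩, ⟨c, d⟩⟩, ⟨s, t⟩⟩ := x
  fin_cases i
  · left
    simp [Parity.Hom, par11, Parity.double, Parity.sum] at h
    obtain ⟨⟨h1, h3⟩, h4⟩ := h
    exact ⟨rfl, a, d, s, by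
      rw [eq_zero_of_eq_neg h2 h1.symm, eq_zero_of_eq_neg h2 h3.symm,
        eq_zero_of_eq_neg h2 h4.symm]⟩
  · right
    simp [Parity.Hom, par11, Parity.double, Parity.sum] at h
    obtain ⟨⟨h1, h3⟩, h4⟩ := h
    exact ⟨rfl, b, c, t, by
      rw [eq_zero_of_eq_neg h2 h1, eq_zero_of_eq_neg h2 h3, eq_zero_of_eq_neg h2 h4]⟩

lemma g1_isDB (h2 : (2 : F) ≠ 0) : (G1 F).IsDB where
  dot_bilin :=
    { add_left := fun x x' y => by ext <;> simp [G1] <;> ring
      add_right := fun x x' y => by ext <;> simp [G1] <;> ring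
      smul_left := fun r x y => by ext <;> simp [G1] <;> ring
      smul_right := fun r x y => by ext <;> simp [G1] <;> ring }
  br_bilin :=
    { add_left := fun x x' y => by ext <;> simp [G1]; ring
      add_right := fun x x' y => by ext <;> simp [G1]; ring
      smul_left := fun r x y => by ext <;> simp [G1]; ring
      smul_right := fun r x y => by ext <;> simp [G1]; ring }
  dot_even x y := by ext <;> simp [G1, par11]; ring
  br_even x y := by ext <;> simp [G1, par11]
  assoc x y z := by ext <;> simp [G1] <;> ring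
  dot_comm i j x y hx hy := by
    obtain ⟨rfl, a, rfl⟩ | ⟨rfl, a, rfl⟩ := hom11 h2 hx <;>
    obtain ⟨rfl, b, rfl⟩ | ⟨rfl, b, rfl⟩ := hom11 h2 hy <;>
    simp [G1, mul_comm]
  br_anticomm i j x y hx hy := by
    obtain ⟨rfl, a, rfl⟩ | ⟨rfl, a, rfl⟩ := hom11 h2 hx <;>
    obtain ⟨rfl, b, rfl⟩ | ⟨rfl, b, rfl⟩ := hom11 h2 hy <;>
    simp [G1, mul_comm]

omit [Field F] in
lemma extE {a b c d s t a' b' c' d' s' t' : F} (h1 : a = a') (h2 : b = b') (h3 : c = c')
    (h4 : d = d') (h5 : s = s') (h6 : t = t') :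
    ((((a, b), (c, d)), (s, t)) : ((F × F) × (F × F)) × (F × F)) =
      (((a', b'), (c', d')), (s', t')) := by
  subst h1 h2 h3 h4 h5 h6; rfl

/-- the product of the split null extension `Kan(G₁) ⊕ M` -/
def mulE (x y : ((F × F) × (F × F)) × (F × F)) : ((F × F) × (F × F)) × (F × F) :=
  ((G1 F).kanMul x.1 y.1, (M11 F).actL x.1 y.2 + (M11 F).actR x.2 y.1)

lemma mulE_mk (a b c d s t a' b' c' d' s' t' : F) :
    mulE (((a, b), (c, d)), (s, t)) (((a', b'), (c', d')), (s', t')) =
      (((a * a' + d * d', a * b' + b * a'), (a * c' + c * a', a * d' + b * c' + d * a' - c * b')),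
        (a * s' + d * s' + b * t' + a' * s + d' * s - b' * t, a * t' + c * s' + a' * t + c' * s)) := by
  simp only [mulE, G1, M11, DotBracket.kanMul, par11, LinearMap.prodMap_apply,
    LinearMap.neg_apply, LinearMap.id_apply, Prod.mk_add_mk]
  refine extE ?_ ?_ ?_ ?_ ?_ ?_ <;> ring

lemma smulE_mk (r a b c d s t : F) :
    r • (((a, b), (c, d)), (s, t)) = (((r * a, r * b), (r * c, r * d)), (r * s, r * t)) := rfl

lemma mulE_bilin : IsBilin F (mulE (F := F)) := by
  constructor
  case add_left =>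
    rintro ⟨⟨⟨x1, x2⟩, ⟨x3, x4⟩⟩, ⟨x5, x6⟩⟩ ⟨⟨⟨y1, y2⟩, ⟨y3, y4⟩⟩, ⟨y5, y6⟩⟩
      ⟨⟨⟨z1, z2⟩, ⟨z3, z4⟩⟩, ⟨z5, z6⟩⟩
    simp only [mulE_mk, Prod.mk_add_mk, Prod.mk.injEq]
    refine ⟨⟨⟨?_, ?_⟩, ⟨?_, ?_⟩⟩, ⟨?_, ?_⟩⟩ <;> ring
  case add_right =>
    rintro ⟨⟨⟨x1, x2⟩, ⟨x3, x4⟩⟩, ⟨x5, x6⟩⟩ ⟨⟨⟨y1, y2⟩, ⟨y3, y4⟩⟩, ⟨y5, y6⟩⟩
      ⟨⟨⟨z1, z2⟩, ⟨z3, z4⟩⟩, ⟨z5, z6⟩⟩
    simp only [mulE_mk, Prod.mk_add_mk, Prod.mk.injEq]
    refine ⟨⟨⟨?_, ?_⟩, ⟨?_, ?_⟩⟩, ⟨?_, ?_⟩⟩ <;> ring
  case smul_left =>
    rintro r ⟨⟨⟨x1, x2⟩, ⟨x3, x4⟩⟩, ⟨x5, x6⟩⟩ ⟨⟨⟨y1, y2⟩, ⟨y3, y4⟩⟩, ⟨y5, y6⟩⟩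
    simp only [mulE_mk, smulE_mk, Prod.mk.injEq]
    refine ⟨⟨⟨?_, ?_⟩, ⟨?_, ?_⟩⟩, ⟨?_, ?_⟩⟩ <;> ring
  case smul_right =>
    rintro r ⟨⟨⟨x1, x2⟩, ⟨x3, x4⟩⟩, ⟨x5, x6⟩⟩ ⟨⟨⟨y1, y2⟩, ⟨y3, y4⟩⟩, ⟨y5, y6⟩⟩
    simp only [mulE_mk, smulE_mk, Prod.mk.injEq]
    refine ⟨⟨⟨?_, ?_⟩, ⟨?_, ?_⟩⟩, ⟨?_, ?_⟩⟩ <;> ring

lemma mulE_jordan (h2 : (2 : F) ≠ 0) :
    IsJordan ((par11 F).double.sum (par11 F)) (mulE (F := F)) := by
  constructor
  case bilin => exact mulE_bilin
  case even =>
    rintro ⟨⟨⟨x1, x2⟩, ⟨x3, x4⟩⟩, ⟨x5, x6⟩⟩ ⟨⟨⟨y1, y2⟩, ⟨y3, y4⟩⟩, ⟨y5, y6⟩⟩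
    simp only [mulE_mk, par11, Parity.sum, Parity.double, LinearMap.prodMap_apply,
      LinearMap.neg_apply, LinearMap.id_apply, Prod.neg_mk, neg_neg]
    refine extE ?_ ?_ ?_ ?_ ?_ ?_ <;> ring
  case comm =>
    intro i j x y hx hy
    obtain ⟨rfl, a, b, c, rfl⟩ | ⟨rfl, a, b, c, rfl⟩ := homE h2 hx <;>
    obtain ⟨rfl, a', b', c', rfl⟩ | ⟨rfl, a', b', c', rfl⟩ := homE h2 hy <;>
    (simp only [mulE_mk, smulE_mk, Fin.val_zero, Fin.val_one]
     refine extE ?_ ?_ ?_ ?_ ?_ ?_ <;> ring)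
  case jordan =>
    intro i j k l x₁ x₂ y x₃ h₁ h₂ hy h₃
    obtain ⟨rfl, a, b, c, rfl⟩ | ⟨rfl, a, b, c, rfl⟩ := homE h2 h₁ <;>
    obtain ⟨rfl, a', b', c', rfl⟩ | ⟨rfl, a', b', c', rfl⟩ := homE h2 h₂ <;>
    obtain ⟨rfl, p, q, r, rfl⟩ | ⟨rfl, p, q, r, rfl⟩ := homE h2 hy <;>
    obtain ⟨rfl, p', q', r', rfl⟩ | ⟨rfl, p', q', r', rfl⟩ := homE h2 h₃ <;>
    (simp only [mulE_mk, smulE_mk, Prod.mk_add_mk, Fin.val_zero, Fin.val_one,
      mul_zero, zero_mul, add_zero, zero_add, sub_zero, zero_sub]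
     refine extE ?_ ?_ ?_ ?_ ?_ ?_ <;> ring)
  case jordan_even =>
    intro x y hx
    obtain ⟨-, a, b, c, rfl⟩ | ⟨h, -⟩ := homE h2 hx
    · obtain ⟨⟨⟨y1, y2⟩, ⟨y3, y4⟩⟩, ⟨y5, y6⟩⟩ := y
      simp only [mulE_mk, mul_zero, zero_mul, add_zero, zero_add, sub_zero]
      refine extE ?_ ?_ ?_ ?_ ?_ ?_ <;> ring
    · simp at h

lemma m11_jordan (h2 : (2 : F) ≠ 0) :
    (M11 F).IsJordanModule (G1 F).par.double (G1 F).kanMul where
  actR_bilin :=
    { add_left := fun x x' y => by ext <;> simp [M11] <;> ring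
      add_right := fun x x' y => by ext <;> simp [M11] <;> ring
      smul_left := fun r x y => by ext <;> simp [M11] <;> ring
      smul_right := fun r x y => by ext <;> simp [M11] <;> ring }
  actL_bilin :=
    { add_left := fun x x' y => by ext <;> simp [M11] <;> ring
      add_right := fun x x' y => by ext <;> simp [M11] <;> ring
      smul_left := fun r x y => by ext <;> simp [M11] <;> ring
      smul_right := fun r x y => by ext <;> simp [M11] <;> ring }
  jordan := mulE_jordan h2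

/-- the bracket of `G₁` is Jordan (read off from the null extension) -/
lemma g1_jordan (h2 : (2 : F) ≠ 0) : (G1 F).JordanBracket := by
  have H := (m11_jordan (F := F) h2).jordan
  have hh : ∀ (i : Fin 2) (x : (F × F) × (F × F)), (G1 F).par.double.Hom i x →
      ((G1 F).par.double.sum (M11 F).par).Hom i (x, 0) := by
    intro i x hx
    unfold Parity.Hom at hx ⊢
    simp only [Parity.sum, LinearMap.prodMap_apply, hx, map_zero]
    ext <;> simp
  constructor
  case bilin =>
    exact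
      { add_left := fun x x' y =>
          congrArg Prod.fst (H.bilin.add_left (x, 0) (x', 0) (y, 0))
        add_right := fun x y y' =>
          congrArg Prod.fst (H.bilin.add_right (x, 0) (y, 0) (y', 0))
        smul_left := fun r x y =>
          congrArg Prod.fst (H.bilin.smul_left r (x, 0) (y, 0))
        smul_right := fun r x y =>
          congrArg Prod.fst (H.bilin.smul_right r (x, 0) (y, 0)) }
  case even =>
    intro x y
    exact congrArg Prod.fst (H.even (x, 0) (y, 0))
  case comm =>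
    intro i j x y hx hy
    exact congrArg Prod.fst (H.comm i j (x, 0) (y, 0) (hh i x hx) (hh j y hy))
  case jordan =>
    intro a b c d x₁ x₂ y x₃ h₁ h₂ hy h₃
    exact congrArg Prod.fst (H.jordan a b c d (x₁, 0) (x₂, 0) (y, 0) (x₃, 0) (hh _ _ h₁)
      (hh _ _ h₂) (hh _ _ hy) (hh _ _ h₃))
  case jordan_even =>
    intro x y hx
    exact congrArg Prod.fst (H.jordan_even (x, 0) (y, 0) (hh _ _ hx))

lemma g1_simple : (G1 F).IsSimple := by
  refine ⟨inferInstance, ?_⟩
  intro I hI
  by_cases h : ∀ x ∈ I, x = 0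
  · left
    exact (Submodule.eq_bot_iff I).2 h
  · right
    push Not at h
    obtain ⟨⟨a, b⟩, hx, hne⟩ := h
    have one : ((1 : F), (0 : F)) ∈ I := by
      by_cases ha : a = 0
      · subst ha
        have hb : b ≠ 0 := by
          rintro rfl
          exact hne rfl
        have := (hI _ hx (0, -b⁻¹)).2.2.1
        simpa [G1, hb] using this
      · have := (hI _ hx (a⁻¹, -(a⁻¹ * b * a⁻¹))).1
        have e : (G1 F).dot (a, b) (a⁻¹, -(a⁻¹ * b * a⁻¹)) = (1, 0) := by
          ext
          · simp [G1, ha]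
          · simp only [G1]
            field_simp
            ring
        rwa [e] at this
    rw [eq_top_iff]
    rintro y -
    have := (hI _ one y).1
    have e : (G1 F).dot (1, 0) y = y := by
      ext <;> simp [G1]
    rwa [e] at this

lemma m11_irreducible (h2 : (2 : F) ≠ 0) : (M11 F).Irreducible := by
  refine ⟨inferInstance, ?_⟩
  intro S hγ hS
  by_cases h : ∀ x ∈ S, x = 0
  · left
    exact (Submodule.eq_bot_iff S).2 h
  · right
    push Not at h
    obtain ⟨⟨s, t⟩, hx, hne⟩ := h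
    have hx' : (s, -t) ∈ S := by
      have := hγ _ hx
      simpa [M11, par11] using this
    have m0 : ((1 : F), (0 : F)) ∈ S := by
      by_cases hs : s = 0
      · subst hs
        have ht : t ≠ 0 := by
          rintro rfl
          exact hne rfl
        have := (hS _ hx ((0, -t⁻¹), (0, 0))).1
        simpa [M11, ht] using this
      · have := S.smul_mem (2⁻¹ * s⁻¹) (S.add_mem hx hx')
        have e : (2⁻¹ * s⁻¹ : F) • ((s, t) + (s, -t)) = ((1 : F), (0 : F)) := by
          ext
          · simp only [Prod.mk_add_mk, Prod.smul_mk, smul_eq_mul]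
            field_simp
            ring
          · simp
        rwa [e] at this
    have m1 : ((0 : F), (1 : F)) ∈ S := by
      have := (hS _ m0 ((0, 0), (1, 0))).1
      simpa [M11] using this
    rw [eq_top_iff]
    rintro ⟨y, z⟩ -
    have := S.add_mem (S.smul_mem y m0) (S.smul_mem z m1)
    simpa using this

/-- **Theorem.**  Let `F` be any field with `2 ≠ 0`.  The Grassmann Poisson superalgebra
`A = G₁` on one odd generator is a simple unital dot-bracket superalgebra whose bracket is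
Jordan, the two-dimensional `M` above is a unital irreducible Jordan supermodule over `Kan(A)`,
and `M` is not isomorphic to `Kan(V)` for any unital dot-bracket supermodule `V` with a Jordan
bracket over `A` (irreducible or not). -/
theorem result (F : Type u) [Field F] (h2 : (2 : F) ≠ 0) :
    (G1 F).IsDB ∧ (G1 F).IsOne (1, 0) ∧ (G1 F).IsSimple ∧ (G1 F).JordanBracket ∧
    (M11 F).IsJordanModule (G1 F).par.double (G1 F).kanMul ∧
    (M11 F).Unital ((1, 0), (0, 0)) ∧ (M11 F).Irreducible ∧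
    ∀ (V : Type w) [AddCommGroup V] [Module F V] (N : DBModule F (F × F) V),
      N.IsJordanDB (G1 F) → N.Unital (1, 0) →
        ¬ ∃ f : (F × F) ≃ₗ[F] (V × V), (M11 F).IsIso (N.kan (G1 F)) f := by
  refine ⟨g1_isDB h2, fun x => ⟨by ext <;> simp [G1], by ext <;> simp [G1]⟩, g1_simple,
    g1_jordan h2, m11_jordan h2, fun m => ⟨by ext <;> simp [M11], by ext <;> simp [M11]⟩,
    m11_irreducible h2, ?_⟩
  intro V _ _ N hN _ ⟨f, hf⟩
  obtain ⟨-, hr, -⟩ := hf
  -- dimension count
  have hfin : Module.Finite F (V × V) := Module.Finite.equiv f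
  have hfinV : Module.Finite F V :=
    Module.Finite.of_surjective (LinearMap.fst F V V) Prod.fst_surjective
  have hd : Module.finrank F V = 1 := by
    have h := f.finrank_eq
    rw [Module.finrank_prod, Module.finrank_prod, Module.finrank_self] at h
    omega
  obtain ⟨v, hv, hspan⟩ := finrank_eq_one_iff'.1 hd
  -- `v` is homogeneous
  obtain ⟨c, hc⟩ := hspan (N.par.γ v)
  have hc0 : c ≠ 0 := by
    rintro rfl
    have h := N.par.invol v
    rw [← hc, zero_smul, map_zero] at h
    exact hv h.symm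
  -- odd operators on `V` are zero
  have key : ∀ g : V → V, (∀ (r : F) (x : V), g (r • x) = r • g x) →
      (∀ x, N.par.γ (g x) = -g (N.par.γ x)) → ∀ x, g x = 0 := by
    intro g hg hgγ x
    obtain ⟨k, hk⟩ := hspan (g v)
    obtain ⟨r, hr⟩ := hspan x
    have h1 := hgγ v
    rw [← hc, hg, ← hk, map_smul, ← hc, smul_smul, smul_smul, ← neg_smul] at h1
    have h3 : k * c = -(c * k) := smul_left_injective F hv h1
    have h4 : k = 0 := by
      have : 2 * (k * c) = 0 := by linear_combination h3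
      rcases mul_eq_zero.1 this with h | h
      · exact absurd h h2
      · exact (mul_eq_zero.1 h).resolve_right hc0
    rw [← hr, hg, ← hk, h4, zero_smul, smul_zero]
  have hDB := hN.isDB
  have he : (G1 F).par.γ (0, 1) = -((0 : F), (1 : F)) := by
    ext <;> simp [G1, par11]
  have neg_right : ∀ {f : V → F × F → V}, IsBilin F f → ∀ x a, f x (-a) = - f x a := by
    intro f hf x a
    have := hf.smul_right (-1) x a
    simpa using this
  have zero_left : ∀ {f : F × F → V → V}, IsBilin F f → ∀ x, f 0 x = 0 := by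
    intro f hf x
    have := hf.smul_left 0 0 x
    simpa using this
  have zero_right : ∀ {f : V → F × F → V}, IsBilin F f → ∀ x, f x 0 = 0 := by
    intro f hf x
    have := hf.smul_right 0 x 0
    simpa using this
  have dot0 : ∀ x, N.dotR x (0, 1) = 0 := by
    apply key
    · intro r x
      exact hN.dotR_bilin.smul_left r x (0, 1)
    · intro x
      have h := congrArg Prod.snd (hDB.dot_even ((0 : F × F), x) ((0, 1), 0))
      simp only [DBModule.nullExt, Parity.sum, LinearMap.prodMap_apply, map_zero,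
        zero_left hN.dotL_bilin, zero_add, he, neg_right hN.dotR_bilin] at h
      exact h
  have br0 : ∀ x, N.brR x (0, 1) = 0 := by
    apply key
    · intro r x
      exact hN.brR_bilin.smul_left r x (0, 1)
    · intro x
      have h := congrArg Prod.snd (hDB.br_even ((0 : F × F), x) ((0, 1), 0))
      simp only [DBModule.nullExt, Parity.sum, LinearMap.prodMap_apply, map_zero,
        zero_left hN.brL_bilin, zero_add, he, neg_right hN.brR_bilin] at h
      exact h
  -- so `ē` acts by zero on `Kan(V)`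
  have h0 : f ((M11 F).actR (1, 0) ((0, 0), (0, 1))) = 0 := by
    rw [hr]
    have z : ((0 : F), (0 : F)) = 0 := rfl
    simp only [DBModule.kan, he, neg_right hN.brR_bilin, br0, dot0, z, map_zero,
      zero_right hN.dotR_bilin, neg_zero, add_zero]
    rfl
  have h1 : (M11 F).actR (1, 0) ((0, 0), (0, 1)) = (1, 0) := by
    ext <;> simp [M11]
  rw [h1] at h0
  have := f.injective (h0.trans (map_zero f).symm)
  simp at this

end

end Pool.Agent.Results.MP_ba200f_al.NotKan
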